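import Mathlib

/-! Two finite combinatorial lemmas: edge covers of bipartite graphs without isolated vertices,
and two-colourings that respect a short list of edges. -/

namespace Pool.Agent.P.MP_267911_gt.Ex

open Set

theorem exists_range_eq {Y : Type} (S : Finset Y) (hS : S.Nonempty) {m : ℕ} (hm : S.card ≤ m) :
    ∃ e : Fin m → Y, range e = ↑S := by
  classical
  have : Nonempty S := hS.to_subtype
  obtain ⟨j⟩ : Nonempty (S ↪ Fin m) :=
    Function.Embedding.nonempty_of_card_le (by simpa using hm)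
  refine ⟨fun i => (Function.invFun j i).1, ?_⟩
  ext y
  constructor
  · rintro ⟨i, rfl⟩
    exact (Function.invFun j i).2
  · intro hy
    obtain ⟨i, hi⟩ := Function.invFun_surjective j.injective ⟨y, hy⟩
    exact ⟨i, congrArg Subtype.val hi⟩

theorem cover_of_fun {X : Type} [DecidableEq X] (A B : Finset X) (hA : A.Nonempty)
    (R : X → X → Prop) (f : X → X) (hf : ∀ a ∈ A, f a ∈ B ∧ R a (f a))
    (hg : ∀ b ∈ B, ∃ a ∈ A, R a b) {m : ℕ}
    (hm : A.card + B.card ≤ m + (A.image f).card) :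
    ∃ α β : Fin m → X, range α = ↑A ∧ range β = ↑B ∧ ∀ i, R (α i) (β i) := by
  classical
  have hg' : ∀ b, ∃ a, b ∈ B → a ∈ A ∧ R a b := by
    intro b
    by_cases hb : b ∈ B
    · obtain ⟨a, ha⟩ := hg b hb
      exact ⟨a, fun _ => ha⟩
    · exact ⟨b, fun h => absurd h hb⟩
  choose g hg using hg'
  let S : Finset (X × X) :=
    A.image (fun a => (a, f a)) ∪ (B \ A.image f).image (fun b => (g b, b))
  have hsub : A.image f ⊆ B := by
    intro b hb
    obtain ⟨a, ha, rfl⟩ := Finset.mem_image.1 hb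
    exact (hf a ha).1
  have hcard : S.card ≤ m := by
    have h1 := Finset.card_union_le (A.image (fun a => (a, f a)))
      ((B \ A.image f).image (fun b => (g b, b)))
    have h2 : (A.image (fun a => (a, f a))).card ≤ A.card := Finset.card_image_le
    have h3 : ((B \ A.image f).image (fun b => (g b, b))).card ≤ (B \ A.image f).card :=
      Finset.card_image_le
    have h4 := Finset.card_sdiff_add_card_eq_card hsub
    change (A.image (fun a => (a, f a)) ∪ (B \ A.image f).image (fun b => (g b, b))).card ≤ m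
    omega
  have hS : ∀ p ∈ S, p.1 ∈ A ∧ p.2 ∈ B ∧ R p.1 p.2 := by
    intro p hp
    rcases Finset.mem_union.1 hp with hp | hp
    · obtain ⟨a, ha, rfl⟩ := Finset.mem_image.1 hp
      exact ⟨ha, (hf a ha).1, (hf a ha).2⟩
    · obtain ⟨b, hb, rfl⟩ := Finset.mem_image.1 hp
      have hb' := (Finset.mem_sdiff.1 hb).1
      exact ⟨(hg b hb').1, hb', (hg b hb').2⟩
  obtain ⟨e, he⟩ := exists_range_eq S
    ((hA.image _).mono Finset.subset_union_left) hcard
  have he1 : ∀ i, e i ∈ S := fun i => by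
    have : e i ∈ range e := ⟨i, rfl⟩
    rwa [he] at this
  have he2 : ∀ p ∈ S, ∃ i, e i = p := fun p hp => by
    have : p ∈ range e := by rw [he]; exact hp
    exact this
  refine ⟨fun i => (e i).1, fun i => (e i).2, ?_, ?_, fun i => (hS _ (he1 i)).2.2⟩
  · ext a
    constructor
    · rintro ⟨i, rfl⟩
      exact (hS _ (he1 i)).1
    · intro ha
      obtain ⟨i, hi⟩ := he2 (a, f a)
        (Finset.mem_union_left _ (Finset.mem_image_of_mem _ ha))
      exact ⟨i, congrArg Prod.fst hi⟩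
  · ext b
    constructor
    · rintro ⟨i, rfl⟩
      exact (hS _ (he1 i)).2.1
    · intro hb
      by_cases hb' : b ∈ A.image f
      · obtain ⟨a, ha, rfl⟩ := Finset.mem_image.1 hb'
        obtain ⟨i, hi⟩ := he2 (a, f a)
          (Finset.mem_union_left _ (Finset.mem_image_of_mem _ ha))
        exact ⟨i, congrArg Prod.snd hi⟩
      · obtain ⟨i, hi⟩ := he2 (g b, b)
          (Finset.mem_union_right _ (Finset.mem_image_of_mem _ (Finset.mem_sdiff.2 ⟨hb, hb'⟩)))
        exact ⟨i, congrArg Prod.snd hi⟩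

theorem two_edges {X : Type} (A B : Finset X) (R : X → X → Prop)
    (hf : ∀ a ∈ A, ∃ b ∈ B, R a b) (hg : ∀ b ∈ B, ∃ a ∈ A, R a b)
    (hA : 1 < A.card) (hB : 1 < B.card) :
    ∃ a1 ∈ A, ∃ a2 ∈ A, ∃ b1 ∈ B, ∃ b2 ∈ B, a1 ≠ a2 ∧ b1 ≠ b2 ∧ R a1 b1 ∧ R a2 b2 := by
  obtain ⟨a1, ha1, a2, ha2, ha⟩ := Finset.one_lt_card.1 hA
  obtain ⟨b1, hb1, r1⟩ := hf a1 ha1
  obtain ⟨b2, hb2, r2⟩ := hf a2 ha2
  by_cases hb : b1 = b2
  · subst hb
    obtain ⟨b', hb', hne⟩ := Finset.exists_mem_ne hB b1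
    obtain ⟨a', ha', r'⟩ := hg b' hb'
    by_cases h : a' = a1
    · subst h
      exact ⟨a2, ha2, a', ha', b1, hb1, b', hb', ha.symm, hne.symm, r2, r'⟩
    · exact ⟨a1, ha1, a', ha', b1, hb1, b', hb', fun h' => h h'.symm, hne.symm, r1, r'⟩
  · exact ⟨a1, ha1, a2, ha2, b1, hb1, b2, hb2, ha, hb, r1, r2⟩

theorem edge_cover_finset {X : Type} (A B : Finset X) (hA : A.Nonempty) (R : X → X → Prop)
    (hf : ∀ a ∈ A, ∃ b ∈ B, R a b) (hg : ∀ b ∈ B, ∃ a ∈ A, R a b) {n m : ℕ} (hn : 2 ≤ n)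
    (hm : 2 * n ≤ m + 2) (hAn : A.card ≤ n) (hBn : B.card ≤ n) :
    ∃ α β : Fin m → X, range α = ↑A ∧ range β = ↑B ∧ ∀ i, R (α i) (β i) := by
  classical
  have hf' : ∀ a, ∃ b, a ∈ A → b ∈ B ∧ R a b := by
    intro a
    by_cases ha : a ∈ A
    · obtain ⟨b, hb⟩ := hf a ha
      exact ⟨b, fun _ => hb⟩
    · exact ⟨a, fun h => absurd h ha⟩
  choose f hff using hf'
  by_cases h : 1 < A.card ∧ 1 < B.card
  · obtain ⟨a1, ha1, a2, ha2, b1, hb1, b2, hb2, ha, hb, r1, r2⟩ := two_edges A B R hf hg h.1 h.2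
    let f' : X → X := fun a => if a = a1 then b1 else if a = a2 then b2 else f a
    have e1 : f' a1 = b1 := if_pos rfl
    have e2 : f' a2 = b2 := by
      simp only [f', if_neg ha.symm, if_true]
    refine cover_of_fun A B hA R f' (fun a haA => ?_) hg ?_
    · simp only [f']
      split_ifs with c1 c2
      · subst c1; exact ⟨hb1, r1⟩
      · subst c2; exact ⟨hb2, r2⟩
      · exact hff a haA
    · have : 1 < (A.image f').card := Finset.one_lt_card.2
        ⟨b1, e1 ▸ Finset.mem_image_of_mem _ ha1, b2, e2 ▸ Finset.mem_image_of_mem _ ha2, hb⟩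
      omega
  · refine cover_of_fun A B hA R f hff hg ?_
    have : 0 < (A.image f).card := (hA.image f).card_pos
    omega

/-- A bipartite relation without isolated vertices between sets of at most `n` points has an
edge cover listed by `m` edges as soon as `2 n - 2 ≤ m`. -/
theorem edge_cover {X : Type} (A B : Set X) (hA : A.Nonempty) (R : X → X → Prop)
    (hf : ∀ a ∈ A, ∃ b ∈ B, R a b) (hg : ∀ b ∈ B, ∃ a ∈ A, R a b) {n m : ℕ} (hn : 2 ≤ n)
    (hm : 2 * n ≤ m + 2) (hAn : A.encard ≤ n) (hBn : B.encard ≤ n) :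
    ∃ α β : Fin m → X, range α = A ∧ range β = B ∧ ∀ i, R (α i) (β i) := by
  obtain ⟨A, rfl⟩ := (finite_of_encard_le_coe hAn).exists_finset_coe
  obtain ⟨B, rfl⟩ := (finite_of_encard_le_coe hBn).exists_finset_coe
  rw [encard_coe_eq_coe_finsetCard, Nat.cast_le] at hAn hBn
  exact edge_cover_finset A B hA R hf hg hn hm hAn hBn

/-- Vertices: two sides with `k + 2` vertices each. -/
abbrev T (k : ℕ) : Type := Fin 2 × Fin (k + 2)

/-- Colours: two-colourings of the vertices that are not constant on some side. -/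
abbrev Col (k : ℕ) : Type := {φ : T k → Bool // ∃ x y : T k, x.1 = y.1 ∧ φ x ≠ φ y}

/-- In the colour `s` two vertices are joined when they lie on one side and `s` agrees on them. -/
def RR {k : ℕ} (s : Col k) (x y : T k) : Prop := x.1 = y.1 ∧ s.1 x = s.1 y

theorem RR.symm {k : ℕ} {s : Col k} {x y : T k} (h : RR s x y) : RR s y x :=
  ⟨h.1.symm, h.2.symm⟩

theorem RR.trans {k : ℕ} {s : Col k} {x y z : T k} (h : RR s x y) (h' : RR s y z) : RR s x z :=
  ⟨h.1.trans h'.1, h.2.trans h'.2⟩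

theorem few_edges {k m : ℕ} (hm : m ≤ 2 * k + 1) (a b : Fin m → T k)
    (h : ∀ j, (a j).1 = (b j).1) : ∃ s : Col k, ∀ j, RR s (a j) (b j) := by
  classical
  obtain ⟨φ, ψ, hne, heq⟩ := Fintype.exists_ne_map_eq_of_card_lt
    (fun φ : T k → Bool => ((fun j => xor (φ (a j)) (φ (b j)), fun i : Fin 2 => φ (i, 0)) :
      (Fin m → Bool) × (Fin 2 → Bool))) (by
      simp only [Fintype.card_prod, Fintype.card_pi, Finset.prod_const, Finset.card_univ,
        Fintype.card_bool, Fintype.card_fin]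
      rw [← pow_add]
      exact Nat.pow_lt_pow_right (by norm_num) (by omega))
  have h1 : ∀ j, xor (φ (a j)) (φ (b j)) = xor (ψ (a j)) (ψ (b j)) :=
    congrFun (congrArg Prod.fst heq)
  have h2 : ∀ i : Fin 2, φ (i, 0) = ψ (i, 0) := congrFun (congrArg Prod.snd heq)
  obtain ⟨x, hx⟩ := Function.ne_iff.1 hne
  refine ⟨⟨fun y => xor (φ y) (ψ y), x, (x.1, 0), rfl, ?_⟩, fun j => ⟨h j, ?_⟩⟩
  · simp only [h2 x.1, Bool.xor_self]
    revert hx
    cases φ x <;> cases ψ x <;> simp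
  · have := h1 j
    revert this
    dsimp only
    cases φ (a j) <;> cases φ (b j) <;> cases ψ (a j) <;> cases ψ (b j) <;> simp

/-- The colour that cuts the vertex `(i, 0)` off from its side. -/
def iso (k : ℕ) (i : Fin 2) : Col k :=
  ⟨fun x => decide (x = (i, 0)), (i, 0), (i, 1), rfl, by simp⟩

theorem RR_iso {k : ℕ} (i : Fin 2) {x y : T k} (h : x.1 = y.1) (hx : x.1 ≠ i) :
    RR (iso k i) x y := by
  refine ⟨h, ?_⟩
  have h1 : x ≠ (i, 0) := fun e => hx (congrArg Prod.fst e)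
  have h2 : y ≠ (i, 0) := fun e => hx (h.trans (congrArg Prod.fst e))
  simp [iso, h1, h2]

theorem RR_refl {k : ℕ} (s : Col k) (x : T k) : RR s x x := ⟨rfl, rfl⟩

theorem no_colour {k : ℕ} (s : Col k) : ¬ ∀ (i : Fin 2) (j : Fin (k + 2)), RR s (i, 0) (i, j) := by
  intro h
  obtain ⟨x, y, hxy, hne⟩ := s.2
  have h1 := (h x.1 x.2).2
  have h2 := (h y.1 y.2).2
  rw [← hxy] at h2
  have h3 : ((x.1, y.2) : T k) = y := Prod.ext hxy rfl
  rw [h3] at h2
  exact hne (h1.symm.trans h2)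

end Pool.Agent.P.MP_267911_gt.Ex
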