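import Mathlib
import Pool.Agent.P.MP_267911_gt.Ex.Sym

/-! The hypersymmetric power of exponent `k + 2` of the same ballean is not normal. -/

set_option linter.unusedSectionVars false

namespace Pool.Agent.P.MP_267911_gt.Ex

open Set

variable {k : ℕ} {Ω : Type} [LinearOrder Ω] [hΩ : IsOmegaOne Ω] {h : Ω → Col k}

/-- The points of the hypersymmetric power. -/
abbrev HH (h : Ω → Col k) : Type :=
  {A : {A : Set (XX Ω k) // IsBdd (Ent h) A ∧ A.Nonempty} | A.1.encard ≤ (k + 2 : ℕ)}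

/-- The set of listed vertices over the index `(i, n)`. -/
def tup (h : Ω → Col k) (u : Fin (k + 2) → T k) (ι : Ω × ℕ) : HH h :=
  ⟨⟨range fun j => (ι.1, ι.2, u j),
    ⟨_, ⟨ι.1, ι.2, rfl⟩, (ι.1, ι.2, u 0), by
      rintro x ⟨j, rfl⟩
      exact ⟨_, rfl, Or.inr (Or.inl ⟨le_rfl, le_rfl⟩)⟩⟩,
    range_nonempty _⟩, by
    change (range fun j => ((ι.1, ι.2, u j) : XX Ω k)).encard ≤ ((k + 2 : ℕ) : ℕ∞)
    rw [← image_univ]
    refine (encard_image_le _ _).trans ?_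
    simp⟩

/-- The entourages of the hypersymmetric power. -/
def HE (γ : Ω) (t : ℕ) : Set (HH h × HH h) :=
  {p | p.1.1.1 ⊆ ball (EE h γ t) p.2.1.1 ∧ p.2.1.1 ⊆ ball (EE h γ t) p.1.1.1}

theorem mem_hyp {F : Set (HH h × HH h)} :
    F ∈ hypersymEnt (Ent h) (k + 2) ↔ ∃ γ t, F = HE γ t := by
  constructor
  · rintro ⟨_, ⟨_, ⟨γ, t, rfl⟩, rfl⟩, rfl⟩
    exact ⟨γ, t, rfl⟩
  · rintro ⟨γ, t, rfl⟩
    exact ⟨_, ⟨_, ⟨γ, t, rfl⟩, rfl⟩, rfl⟩

theorem hyp_bdd {S : Set (HH h)} (hS : IsBdd (hypersymEnt (Ent h) (k + 2)) S) :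
    ∃ N, ∀ w ∈ S, ∀ x ∈ w.1.1, x.2.1 ≤ N := by
  obtain ⟨F, hF, w0, hw0⟩ := hS
  obtain ⟨γ, t, rfl⟩ := mem_hyp.1 hF
  obtain ⟨_, ⟨γ', t', rfl⟩, x0, hx0⟩ := w0.1.2.1
  refine ⟨max t (max t' x0.2.1), fun w hw x hx => ?_⟩
  obtain ⟨_, rfl, h1⟩ := hw0 hw
  obtain ⟨y, hy, h2⟩ := h1.2 hx
  obtain ⟨_, rfl, h3⟩ := hx0 hy
  exact (EP_lev (Or.inl h2)).trans (max_le_max le_rfl (EP_lev (Or.inl h3)))

theorem tup_rel {γ : Ω} {ι : Ω × ℕ} (hι : ι.1 < γ) {u v : Fin (k + 2) → T k}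
    (h1 : ∀ i, ∃ j, RR (col h (iso k 0) γ ι.1 ι.2) (v j) (u i))
    (h2 : ∀ i, ∃ j, RR (col h (iso k 0) γ ι.1 ι.2) (u j) (v i)) :
    (tup h u ι, tup h v ι) ∈ HE (h := h) γ 0 := by
  have key : ∀ {u v : Fin (k + 2) → T k},
      (∀ i, ∃ j, RR (col h (iso k 0) γ ι.1 ι.2) (v j) (u i)) →
      (tup h u ι).1.1 ⊆ ball (EE h γ 0) (tup h v ι).1.1 := by
    rintro u v hh x ⟨i, rfl⟩
    obtain ⟨j, hr⟩ := hh i
    exact ⟨(ι.1, ι.2, v j), ⟨j, rfl⟩, Or.inr (Or.inr ⟨rfl, rfl, hι, hr⟩)⟩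
  exact ⟨key h1, key h2⟩

/-- The base vertex of the side `s` together with the other vertices of the side `s'`. -/
def uu (k : ℕ) (s s' : Fin 2) : Fin (k + 2) → T k := fun i => if i = 0 then (s, 0) else (s', i)

/-- The two base vertices, the one of the side `s` listed first. -/
def uz (k : ℕ) : Fin (k + 2) → T k := fun i => if i = 0 then (0, 0) else (1, 0)

theorem uu_zero (s s' : Fin 2) : uu k s s' 0 = (s, 0) := if_pos rfl

theorem uu_ne (s s' : Fin 2) {i : Fin (k + 2)} (hi : i ≠ 0) : uu k s s' i = (s', i) := if_neg hi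

theorem uz_surj (s : Fin 2) : ∃ j, uz k j = (s, 0) := by
  fin_cases s
  · exact ⟨0, if_pos rfl⟩
  · exact ⟨1, if_neg one_ne_zero⟩

theorem uz_val (j : Fin (k + 2)) : ∃ s, uz k j = (s, 0) := by
  unfold uz
  split_ifs
  · exact ⟨0, rfl⟩
  · exact ⟨1, rfl⟩

theorem near_z {s s' : Fin 2} (hs : s' ≠ s) (hs' : ∀ r : Fin 2, r = s ∨ r = s') :
    (∀ i, ∃ j, RR (iso k s) (uz k j) (uu k s s' i)) ∧
    (∀ i, ∃ j, RR (iso k s) (uu k s s' j) (uz k i)) := by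
  constructor
  · intro i
    by_cases hi : i = 0
    · obtain ⟨j, hj⟩ := uz_surj (k := k) s
      refine ⟨j, ?_⟩
      rw [hi, hj, uu_zero]
      exact RR_refl _ _
    · obtain ⟨j, hj⟩ := uz_surj (k := k) s'
      refine ⟨j, ?_⟩
      rw [hj, uu_ne _ _ hi]
      exact RR_iso s rfl hs
  · intro i
    obtain ⟨r, hr⟩ := uz_val (k := k) i
    rcases hs' r with rfl | rfl
    · refine ⟨0, ?_⟩
      rw [hr, uu_zero]
      exact RR_refl _ _
    · refine ⟨1, ?_⟩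
      rw [hr, uu_ne _ _ one_ne_zero]
      exact RR_iso s rfl hs

theorem hyp_not_normal (hs : ∀ s, Stat {β | h β = s}) :
    ¬ IsNormal (hypersymEnt (Ent h) (k + 2)) := by
  intro hn
  obtain ⟨a0⟩ : Nonempty Ω := inferInstance
  obtain ⟨U, V, hUV, hU, hV⟩ := hn (range (tup h (uu k 1 0))) (range (tup h (uu k 0 1))) (by
      intro F hF
      obtain ⟨γ, t, rfl⟩ := mem_hyp.1 hF
      refine ⟨_, mem_hyp.2 ⟨γ, t, rfl⟩, tup h (fun _ => (0, 0)) (a0, 0), ?_⟩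
      rintro w ⟨⟨_, ⟨ι, rfl⟩, h1⟩, ⟨_, ⟨ι', rfl⟩, h2⟩⟩
      have h3 : ∀ x ∈ (tup h (uu k 1 0) ι).1.1,
          ∃ y ∈ (tup h (uu k 0 1) ι').1.1, (y, x) ∈ EE h γ t := by
        intro x hx
        obtain ⟨z, hz, k1⟩ := h1.1 hx
        obtain ⟨y, hy, k2⟩ := h2.2 hz
        exact ⟨y, hy, EE_trans k2 k1⟩
      have h4 : ∀ x ∈ (tup h (uu k 0 1) ι').1.1,
          ∃ y ∈ (tup h (uu k 1 0) ι).1.1, (y, x) ∈ EE h γ t := by
        intro x hx
        obtain ⟨z, hz, k1⟩ := h2.1 hx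
        obtain ⟨y, hy, k2⟩ := h1.2 hz
        exact ⟨y, hy, EE_trans k2 k1⟩
      have hlev : ι.2 ≤ t := by
        by_contra hlt
        have key : ∀ (u v : T k), u ≠ v → ∀ κ κ' : Ω × ℕ, (κ = ι ∨ κ' = ι) →
            ((κ.1, κ.2, u), (κ'.1, κ'.2, v)) ∈ EE h γ t →
            RR (col h (iso k 0) γ ι.1 ι.2) u v := by
          intro u v huv κ κ' hκ hE
          rcases hE with c | ⟨k1, k2⟩ | ⟨k1, k2, k3, k4⟩
          · exact absurd (congrArg (fun x : XX Ω k => x.2.2) c) huv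
          · rcases hκ with rfl | rfl
            · exact absurd k1 hlt
            · exact absurd k2 hlt
          · have k5 : κ = κ' := Prod.ext k1 k2
            have k6 : κ = ι := by
              rcases hκ with c | c
              · exact c
              · exact k5.trans c
            subst k6
            exact k4
        have step : ∀ (s s' : Fin 2), s ≠ s' → ∀ κ κ' : Ω × ℕ, (κ = ι ∨ κ' = ι) →
            ∀ i : Fin (k + 2), i ≠ 0 → ∀ j,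
            ((κ.1, κ.2, uu k s s' j), (κ'.1, κ'.2, uu k s' s i)) ∈ EE h γ t →
            RR (col h (iso k 0) γ ι.1 ι.2) (s, 0) (s, i) := by
          intro s s' hss κ κ' hκ i hi j hE
          rw [uu_ne _ _ hi] at hE
          by_cases hj : j = 0
          · rw [hj, uu_zero] at hE
            exact key _ _ (fun e => hi (congrArg Prod.snd e).symm) _ _ hκ hE
          · rw [uu_ne _ _ hj] at hE
            exact absurd (key _ _ (fun e => hss (congrArg Prod.fst e).symm) _ _ hκ hE).1.symm hss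
        refine no_colour (col h (iso k 0) γ ι.1 ι.2) fun s i => ?_
        by_cases hi : i = 0
        · rw [hi]
          exact RR_refl _ _
        fin_cases s
        · obtain ⟨y, ⟨j, rfl⟩, c⟩ := h3 _ ⟨i, rfl⟩
          exact step 0 1 (by decide) _ _ (Or.inr rfl) i hi j c
        · obtain ⟨y, ⟨j, rfl⟩, c⟩ := h4 _ ⟨i, rfl⟩
          exact step 1 0 (by decide) _ _ (Or.inl rfl) i hi j c
      have hw : ∀ x ∈ w.1.1, x.2.1 ≤ t := by
        intro x hx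
        obtain ⟨y, ⟨j, rfl⟩, c⟩ := h1.2 hx
        exact (EP_lev (Or.inl c)).trans (max_le le_rfl hlev)
      refine ⟨_, rfl, ?_, ?_⟩
      · rintro x ⟨j, rfl⟩
        obtain ⟨y, hy⟩ := w.1.2.2
        exact ⟨y, hy, Or.inr (Or.inl ⟨hw y hy, Nat.zero_le t⟩)⟩
      · intro x hx
        exact ⟨(a0, 0, (0, 0)), ⟨0, rfl⟩, Or.inr (Or.inl ⟨Nat.zero_le t, hw x hx⟩)⟩)
  obtain ⟨t1, ht1⟩ := antiRamsey h (iso k 0) (hs (iso k 1))
    (fun i n => tup h (uz k) (i, n) ∉ U) (by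
      intro γ
      obtain ⟨N, hN⟩ := hyp_bdd (hU _ (mem_hyp.2 ⟨γ, 0, rfl⟩))
      have := near_z (k := k) (s := 1) (s' := 0) (by decide) (by decide)
      refine ⟨N, fun i n hZ hi hc => hN _ ⟨⟨_, ⟨(i, n), rfl⟩, tup_rel hi ?_ ?_⟩, hZ⟩
        (i, n, uz k 0) ⟨0, rfl⟩⟩
      · rw [hc]; exact this.1
      · rw [hc]; exact this.2)
  obtain ⟨t2, ht2⟩ := antiRamsey h (iso k 0) (hs (iso k 0))
    (fun i n => tup h (uz k) (i, n) ∉ V) (by
      intro γ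
      obtain ⟨N, hN⟩ := hyp_bdd (hV _ (mem_hyp.2 ⟨γ, 0, rfl⟩))
      have := near_z (k := k) (s := 0) (s' := 1) (by decide) (by decide)
      refine ⟨N, fun i n hZ hi hc => hN _ ⟨⟨_, ⟨(i, n), rfl⟩, tup_rel hi ?_ ?_⟩, hZ⟩
        (i, n, uz k 0) ⟨0, rfl⟩⟩
      · rw [hc]; exact this.1
      · rw [hc]; exact this.2)
  obtain ⟨b1, hb1⟩ := ht1 (t1 + t2 + 1) (by omega)
  obtain ⟨b2, hb2⟩ := ht2 (t1 + t2 + 1) (by omega)
  obtain ⟨i, hi⟩ := exists_ub ((countable_singleton b2).insert b1)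
  by_cases hc : tup h (uz k) (i, t1 + t2 + 1) ∈ U
  · exact absurd (hb2 i (Set.disjoint_left.1 hUV hc)) (not_le.2 (hi b2 (Or.inr rfl)))
  · exact absurd (hb1 i hc) (not_le.2 (hi b1 (Or.inl rfl)))

theorem negative {n m : ℕ} (hn : 2 ≤ n) (hm : m + 2 < 2 * n) :
    ∃ (X : Type) (𝓔 : Set (Set (X × X))),
      IsBallean 𝓔 ∧ IsNormal (symEnt 𝓔 m) ∧ ¬ IsNormal (hypersymEnt 𝓔 n) := by
  obtain ⟨k, rfl⟩ : ∃ k, n = k + 2 := ⟨n - 2, by omega⟩
  obtain ⟨Ω, _, _⟩ := exists_omegaOne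
  have : Nonempty (Col k) := ⟨iso k 0⟩
  obtain ⟨h, hs⟩ := exists_partition (Ω := Ω) (Col k)
  exact ⟨XX Ω k, Ent h, isBallean, sym_normal (by omega) hs, hyp_not_normal hs⟩

end Pool.Agent.P.MP_267911_gt.Ex
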