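import Mathlib
import Pool.Agent.P.MP_267911_gt.Defs
import Pool.Agent.P.MP_267911_gt.Ex.Cover

/-! Normality of the symmetric power of exponent `m ≥ 2 n - 2` implies normality of the
hypersymmetric power of exponent `n`. -/

namespace Pool.Agent.P.MP_267911_gt.Ex

open Set

variable {X : Type} {𝓔 : Set (Set (X × X))}

/-- The pair or its reverse lies in `E`. -/
def Nr (E : Set (X × X)) (x y : X) : Prop := (x, y) ∈ E ∨ (y, x) ∈ E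

theorem Nr.symm {E : Set (X × X)} {x y : X} (h : Nr E x y) : Nr E y x := Or.symm h

theorem exists_symm (hb : IsBallean 𝓔) {E : Set (X × X)} (hE : E ∈ 𝓔) :
    ∃ D ∈ 𝓔, ∀ x y, Nr E x y → (x, y) ∈ D := by
  obtain ⟨D, hD, h⟩ := hb.2.1 E hE E hE
  refine ⟨D, hD, fun x y hxy => ?_⟩
  rcases hxy with c | c
  · exact h x y y c (hb.1 E hE y)
  · exact h x x y (hb.1 E hE x) c

theorem exists_comp (hb : IsBallean 𝓔) {E F : Set (X × X)} (hE : E ∈ 𝓔) (hF : F ∈ 𝓔) :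
    ∃ D ∈ 𝓔, ∀ x y z, Nr E x y → Nr F y z → (x, z) ∈ D := by
  obtain ⟨E', hE', h1⟩ := exists_symm hb hE
  obtain ⟨F', hF', h2⟩ := exists_symm hb hF
  obtain ⟨D, hD, h⟩ := hb.2.1 E' hE' F' hF'
  exact ⟨D, hD, fun x y z c1 c2 => h x y z (h1 _ _ c1) (h2 _ _ c2.symm)⟩

theorem exists_pair (hb : IsBallean 𝓔) (x y : X) : ∃ D ∈ 𝓔, (x, y) ∈ D := by
  have : (x, y) ∈ ⋃₀ 𝓔 := by rw [hb.2.2]; trivial
  exact this

theorem exists_sup (hb : IsBallean 𝓔) (x0 : X) {ι : Type} (s : Finset ι) (E : ι → Set (X × X))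
    (hE : ∀ i, E i ∈ 𝓔) : ∃ D ∈ 𝓔, ∀ i ∈ s, E i ⊆ D := by
  classical
  induction s using Finset.induction_on with
  | empty =>
    obtain ⟨D, hD, -⟩ := exists_pair hb x0 x0
    exact ⟨D, hD, fun i hi => absurd hi (Finset.notMem_empty i)⟩
  | insert a s _ ih =>
    obtain ⟨D, hD, h⟩ := ih
    obtain ⟨D', hD', h'⟩ := exists_comp hb hD (hE a)
    refine ⟨D', hD', fun i hi p hp => ?_⟩
    rcases Finset.mem_insert.1 hi with rfl | hi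
    · exact h' p.1 p.1 p.2 (Or.inl (hb.1 D hD _)) (Or.inl hp)
    · exact h' p.1 p.2 p.2 (Or.inl (h i hi hp)) (Or.inl (hb.1 _ (hE a) _))

/-- The points of the hypersymmetric power. -/
abbrev Hy (𝓔 : Set (Set (X × X))) (n : ℕ) : Type :=
  {A : {A : Set X // IsBdd 𝓔 A ∧ A.Nonempty} | A.1.encard ≤ n}

/-- The entourage of the hypersymmetric power given by `E`. -/
def hyE (𝓔 : Set (Set (X × X))) (n : ℕ) (E : Set (X × X)) : Set (Hy 𝓔 n × Hy 𝓔 n) :=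
  {p | p.1.1.1 ⊆ ball E p.2.1.1 ∧ p.2.1.1 ⊆ ball E p.1.1.1}

theorem mem_hy {n : ℕ} {F : Set (Hy 𝓔 n × Hy 𝓔 n)} :
    F ∈ hypersymEnt 𝓔 n ↔ ∃ E ∈ 𝓔, F = hyE 𝓔 n E := by
  constructor
  · rintro ⟨_, ⟨E, hE, rfl⟩, rfl⟩
    exact ⟨E, hE, rfl⟩
  · rintro ⟨E, hE, rfl⟩
    exact ⟨_, ⟨E, hE, rfl⟩, rfl⟩

theorem hy_bdd_iff (hb : IsBallean 𝓔) (x0 : X) {n : ℕ} (hn : 1 ≤ n) {S : Set (Hy 𝓔 n)} :
    IsBdd (hypersymEnt 𝓔 n) S ↔ ∃ D ∈ 𝓔, ∀ w ∈ S, ∀ x ∈ w.1.1, (x0, x) ∈ D := by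
  constructor
  · rintro ⟨F, hF, w0, hw0⟩
    obtain ⟨E, hE, rfl⟩ := mem_hy.1 hF
    obtain ⟨E1, hE1, x1, hx1⟩ := w0.1.2.1
    obtain ⟨E2, hE2, h2⟩ := exists_pair hb x0 x1
    obtain ⟨D1, hD1, c1⟩ := exists_comp hb hE2 hE1
    obtain ⟨D2, hD2, c2⟩ := exists_comp hb hD1 hE
    refine ⟨D2, hD2, fun w hw x hx => ?_⟩
    obtain ⟨_, rfl, h1⟩ := hw0 hw
    obtain ⟨y, hy, h3⟩ := h1.2 hx
    obtain ⟨_, rfl, h4⟩ := hx1 hy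
    exact c2 _ _ _ (Or.inl (c1 _ _ _ (Or.inl h2) (Or.inl h4))) (Or.inl h3)
  · rintro ⟨D, hD, h⟩
    obtain ⟨E, hE, c⟩ := exists_symm hb hD
    refine ⟨_, mem_hy.2 ⟨E, hE, rfl⟩,
      ⟨⟨{x0}, ⟨D, hD, x0, fun x hx => ⟨x0, rfl, ?_⟩⟩, singleton_nonempty _⟩, ?_⟩, ?_⟩
    · rw [mem_singleton_iff.1 hx]
      exact hb.1 D hD x0
    · change ({x0} : Set X).encard ≤ n
      rw [encard_singleton]
      exact_mod_cast hn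
    · intro w hw
      refine ⟨_, rfl, ?_, ?_⟩
      · intro x hx
        obtain ⟨y, hy⟩ := w.1.2.2
        refine ⟨y, hy, c _ _ (Or.inr ?_)⟩
        rw [mem_singleton_iff.1 hx]
        exact h w hw y hy
      · intro x hx
        exact ⟨x0, rfl, c _ _ (Or.inl (h w hw x hx))⟩

/-- The class of a tuple in the symmetric power. -/
abbrev cls {m : ℕ} (x : Fin m → X) : Quotient (permSetoid X m) := Quotient.mk _ x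

/-- The entourage of the symmetric power given by `E`. -/
def syE (m : ℕ) (E : Set (X × X)) :
    Set (Quotient (permSetoid X m) × Quotient (permSetoid X m)) :=
  (fun p => (cls p.1, cls p.2)) '' {p : (Fin m → X) × (Fin m → X) | ∀ i, (p.1 i, p.2 i) ∈ E}

theorem syE_mem {m : ℕ} {E : Set (X × X)} (hE : E ∈ 𝓔) : syE m E ∈ symEnt 𝓔 m :=
  ⟨_, ⟨fun _ => E, fun _ => hE, rfl⟩, rfl⟩

theorem syE_cof (hb : IsBallean 𝓔) (x0 : X) {m : ℕ} {F} (hF : F ∈ symEnt 𝓔 m) :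
    ∃ D ∈ 𝓔, F ⊆ syE m D := by
  obtain ⟨_, ⟨E, hE, rfl⟩, rfl⟩ := hF
  obtain ⟨D, hD, h⟩ := exists_sup hb x0 Finset.univ E hE
  exact ⟨D, hD, image_mono fun p hp i => h i (Finset.mem_univ i) (hp i)⟩

theorem mem_syE {m : ℕ} {E : Set (X × X)} {w : Quotient (permSetoid X m)} {κ : Fin m → X}
    (h : (w, cls κ) ∈ syE m E) : ∃ α, cls α = w ∧ ∀ i, (α i, κ i) ∈ E := by
  obtain ⟨p, hp, h1⟩ := h
  obtain ⟨σ, hσ⟩ := Quotient.exact (congrArg Prod.snd h1)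
  refine ⟨p.1 ∘ σ, ?_, fun i => ?_⟩
  · rw [← show cls p.1 = w from congrArg Prod.fst h1]
    exact (Quotient.sound (s := permSetoid X m) ⟨σ, rfl⟩).symm
  · rw [show κ i = p.2 (σ i) from congrFun hσ i]
    exact hp (σ i)

theorem range_eq_of_cls {m : ℕ} {α β : Fin m → X} (h : cls α = cls β) : range α = range β := by
  obtain ⟨σ, hσ⟩ := Quotient.exact h
  rw [hσ, σ.surjective.range_comp]

theorem sy_bdd_iff (hb : IsBallean 𝓔) (x0 : X) {m : ℕ} {S : Set (Quotient (permSetoid X m))} :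
    IsBdd (symEnt 𝓔 m) S ↔ ∃ D ∈ 𝓔, ∀ κ, cls κ ∈ S → ∀ i, (x0, κ i) ∈ D := by
  constructor
  · rintro ⟨F, hF, w0, hw0⟩
    obtain ⟨E, hE, hFE⟩ := syE_cof hb x0 hF
    obtain ⟨y, rfl⟩ := Quotient.exists_rep w0
    choose G hG hG' using fun j => exists_pair hb x0 (y j)
    obtain ⟨D1, hD1, c1⟩ := exists_sup hb x0 Finset.univ G hG
    obtain ⟨D2, hD2, c2⟩ := exists_comp hb hD1 hE
    refine ⟨D2, hD2, fun κ hκ i => ?_⟩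
    obtain ⟨_, rfl, h1⟩ := hw0 hκ
    obtain ⟨α, hα, h2⟩ := mem_syE (hFE h1)
    have h3 : α i ∈ range y := range_eq_of_cls hα ▸ mem_range_self i
    obtain ⟨j, hj⟩ := h3
    exact c2 _ _ _ (Or.inl (hj ▸ c1 j (Finset.mem_univ j) (hG' j))) (Or.inl (h2 i))
  · rintro ⟨D, hD, h⟩
    refine ⟨_, syE_mem hD, cls fun _ => x0, fun w hw => ?_⟩
    obtain ⟨κ, rfl⟩ := Quotient.exists_rep w
    exact ⟨_, rfl, (fun _ => x0, κ), h κ hw, rfl⟩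

/-- The classes of tuples whose range belongs to the family `𝒜`. -/
def up {n : ℕ} (m : ℕ) (𝒜 : Set (Hy 𝓔 n)) : Set (Quotient (permSetoid X m)) :=
  {w | ∃ α, cls α = w ∧ ∃ a ∈ 𝒜, a.1.1 = range α}

theorem up_ball {n m : ℕ} {𝒜 : Set (Hy 𝓔 n)} {E : Set (X × X)} {κ : Fin m → X}
    (h : cls κ ∈ ball (syE m E) (up m 𝒜)) :
    ∃ α : Fin m → X, (∃ a ∈ 𝒜, a.1.1 = range α) ∧ ∀ i, (α i, κ i) ∈ E := by
  obtain ⟨_, ⟨α, rfl, a, ha, ha'⟩, h1⟩ := h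
  obtain ⟨β, hβ, h2⟩ := mem_syE h1
  exact ⟨β, ⟨a, ha, ha'.trans (range_eq_of_cls hβ).symm⟩, h2⟩

theorem up_disjoint (hb : IsBallean 𝓔) (x0 : X) {n m : ℕ} (hn : 1 ≤ n) {𝒜 ℬ : Set (Hy 𝓔 n)}
    (h : AsympDisjoint (hypersymEnt 𝓔 n) 𝒜 ℬ) :
    AsympDisjoint (symEnt 𝓔 m) (up m 𝒜) (up m ℬ) := by
  intro F hF
  obtain ⟨E, hE, hFE⟩ := syE_cof hb x0 hF
  obtain ⟨D, hD, c⟩ := exists_comp hb hE hE
  obtain ⟨D1, hD1, c1⟩ := (hy_bdd_iff hb x0 hn).1 (h _ (mem_hy.2 ⟨D, hD, rfl⟩))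
  obtain ⟨D2, hD2, c2⟩ := exists_comp hb hD1 hE
  refine (sy_bdd_iff hb x0).2 ⟨D2, hD2, ?_⟩
  rintro κ ⟨⟨a', ha', h1⟩, ⟨b', hb', h2⟩⟩ i
  obtain ⟨α, ⟨a, ha, haα⟩, hα⟩ := up_ball ⟨a', ha', hFE h1⟩
  obtain ⟨β, ⟨b, hbb, hbβ⟩, hβ⟩ := up_ball ⟨b', hb', hFE h2⟩
  have h3 : b ∈ ball (hyE 𝓔 n D) 𝒜 ∩ ball (hyE 𝓔 n D) ℬ := by
    refine ⟨⟨a, ha, ?_, ?_⟩, ⟨b, hbb, ?_, ?_⟩⟩
    · change a.1.1 ⊆ ball D b.1.1
      rw [haα, hbβ]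
      rintro _ ⟨j, rfl⟩
      exact ⟨β j, ⟨j, rfl⟩, c _ _ _ (Or.inl (hβ j)) (Or.inr (hα j))⟩
    · change b.1.1 ⊆ ball D a.1.1
      rw [haα, hbβ]
      rintro _ ⟨j, rfl⟩
      exact ⟨α j, ⟨j, rfl⟩, c _ _ _ (Or.inl (hα j)) (Or.inr (hβ j))⟩
    · exact fun x hx => ⟨x, hx, hb.1 D hD x⟩
    · exact fun x hx => ⟨x, hx, hb.1 D hD x⟩
  exact c2 _ _ _ (Or.inl (c1 b h3 (β i) (hbβ ▸ mem_range_self i))) (Or.inl (hβ i))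

/-- The neighbourhood in the hypersymmetric power induced by a set `U` of classes of tuples. -/
def down (𝓔 : Set (Set (X × X))) (n : ℕ) {m : ℕ} (U : Set (Quotient (permSetoid X m))) :
    Set (Hy 𝓔 n) :=
  {C | ∃ (A : Set X) (N : X → X → Prop), A.encard ≤ n ∧ (∀ a ∈ A, ∃ c ∈ C.1.1, N a c) ∧
    (∀ c ∈ C.1.1, ∃ a ∈ A, N a c) ∧
    ∀ α κ : Fin m → X, range α = A → (∀ i, κ i ∈ C.1.1 ∧ N (α i) (κ i)) → cls κ ∈ U}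

theorem down_disjoint {n m : ℕ} (hn : 2 ≤ n) (hm : 2 * n ≤ m + 2)
    {U V : Set (Quotient (permSetoid X m))} (h : Disjoint U V) :
    Disjoint (down 𝓔 n U) (down 𝓔 n V) := by
  rw [Set.disjoint_left]
  rintro C ⟨A, N, hA, a1, a2, a3⟩ ⟨B, M, hB, b1, b2, b3⟩
  obtain ⟨c0, hc0⟩ := C.1.2.2
  obtain ⟨a0, ha0, -⟩ := a2 c0 hc0
  obtain ⟨α, β, hα, hβ, hR⟩ := edge_cover A B ⟨a0, ha0⟩
    (fun a b => ∃ c ∈ C.1.1, N a c ∧ M b c)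
    (fun a ha => by
      obtain ⟨c, hc, h1⟩ := a1 a ha
      obtain ⟨b, hb, h2⟩ := b2 c hc
      exact ⟨b, hb, c, hc, h1, h2⟩)
    (fun b hb => by
      obtain ⟨c, hc, h1⟩ := b1 b hb
      obtain ⟨a, ha, h2⟩ := a2 c hc
      exact ⟨a, ha, c, hc, h2, h1⟩) hn hm hA hB
  choose κ hκ h1 h2 using hR
  exact Set.disjoint_left.1 h (a3 α κ hα fun i => ⟨hκ i, h1 i⟩)
    (b3 β κ hβ fun i => ⟨hκ i, h2 i⟩)

theorem down_nhd (hb : IsBallean 𝓔) (x0 : X) {n m : ℕ} (hn : 1 ≤ n) {𝒜 : Set (Hy 𝓔 n)}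
    {U : Set (Quotient (permSetoid X m))} (h : AsympNhd (symEnt 𝓔 m) U (up m 𝒜)) :
    AsympNhd (hypersymEnt 𝓔 n) (down 𝓔 n U) 𝒜 := by
  intro F hF
  obtain ⟨E, hE, rfl⟩ := mem_hy.1 hF
  obtain ⟨D, hD, c⟩ := exists_symm hb hE
  obtain ⟨D1, hD1, c1⟩ := (sy_bdd_iff hb x0).1 (h _ (syE_mem hD))
  obtain ⟨D2, hD2, c2⟩ := exists_comp hb hD1 hD
  obtain ⟨D3, hD3, c3⟩ := exists_comp hb hD2 hD
  refine (hy_bdd_iff hb x0 hn).2 ⟨D3, hD3, ?_⟩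
  rintro C ⟨⟨a, ha, h1, h2⟩, hC⟩ x hx
  have h3 : ∀ y ∈ C.1.1, ∃ z ∈ a.1.1, (z, y) ∈ D := fun y hy => by
    obtain ⟨z, hz, h4⟩ := h2 hy
    exact ⟨z, hz, c _ _ (Or.inl h4)⟩
  have h4 : ¬ ∀ α κ : Fin m → X, range α = a.1.1 →
      (∀ i, κ i ∈ C.1.1 ∧ (α i, κ i) ∈ D) → cls κ ∈ U := fun h5 =>
    hC ⟨a.1.1, fun y z => (y, z) ∈ D, a.2, fun y hy => by
      obtain ⟨z, hz, h4⟩ := h1 hy
      exact ⟨z, hz, c _ _ (Or.inr h4)⟩, h3, h5⟩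
  push Not at h4
  obtain ⟨α, κ, hα, hκ, hU⟩ := h4
  have h5 := c1 κ ⟨⟨cls α, ⟨α, rfl, a, ha, hα.symm⟩, (α, κ), fun i => (hκ i).2, rfl⟩, hU⟩
  obtain ⟨z, hz, h6⟩ := h3 x hx
  rw [← hα] at hz
  obtain ⟨i, rfl⟩ := hz
  exact c3 _ _ _ (Or.inl (c2 _ _ _ (Or.inl (h5 i)) (Or.inr (hκ i).2))) (Or.inl h6)

theorem positive {n m : ℕ} (hn : 2 ≤ n) (hm : 2 * n ≤ m + 2) (hb : IsBallean 𝓔)
    (hs : IsNormal (symEnt 𝓔 m)) : IsNormal (hypersymEnt 𝓔 n) := by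
  intro 𝒜 ℬ h
  rcases isEmpty_or_nonempty X with hX | ⟨⟨x0⟩⟩
  · refine ⟨∅, ∅, disjoint_empty _, fun F hF => ?_, fun F hF => ?_⟩
    all_goals
      obtain ⟨_, _, w, -⟩ := h F hF
      obtain ⟨x, -⟩ := w.1.2.2
      exact hX.elim x
  obtain ⟨U, V, hUV, hU, hV⟩ := hs _ _ (up_disjoint hb x0 (by omega) h)
  exact ⟨_, _, down_disjoint hn hm hUV, down_nhd hb x0 (by omega) hU,
    down_nhd hb x0 (by omega) hV⟩

end Pool.Agent.P.MP_267911_gt.Ex
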